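import Pool.Agent.Q166.DS.Low

/-!
# Box dimension of spirals at degenerate foci with unequal exponents

Let `m > n ≥ 1` be odd, `k ≥ 1`, `σ = ±1`, `ρ = x^(2m) + y^(2n)`. Every spiral trajectory near the
origin of the system

`x' = -n y^(2n-1) + σ n x^m y^(n-1) ρ^k`, `y' = m x^(2m-1) + σ m x^(m-1) y^n ρ^k`

has Minkowski dimension `2 - (1 + n/m) / (1 + 2 k n)`, and it is Minkowski nondegenerate.

Proof. For `σ = -1` put `P = x^m + i y^n`, `g = m n x^(m-1) y^(n-1) ≥ 0`. Then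
`P' = g (i - ρ^k) P`, so with the angle `θ = φ + ∫ g` we have `P = R e^(iθ)` and
`R^(-2k) = C + 2 k θ`: in the coordinates `(x^m, y^n)` every trajectory is a power spiral, and the
trajectory is the curve `x^m = R cos θ`, `y^n = R sin θ`, `R = (C + 2kθ)^(-1/(2k))`
(`Pool.Agent.Q166.DS.traj`). A quarter turn with `R ≤ r` is covered by a constant times
`r^(1/m) / ε` discs of radius `ε`; the part with `R ≤ r` lies in a box of size
`r^(1/m) × r^(1/n)`; take `r = ε^(n/(1+2kn))`. Conversely, every point `(a, b)` with `b > 0` small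
and `0 ≤ a^m ≤ b^n` has a vertical distance at most `K b^(2kn+1)` to the curve.
-/

set_option autoImplicit false

namespace Pool.Agent.Results.MP_7e532d_an.BoxDimension

open MeasureTheory Filter Topology Set

/-- `(x, y)` satisfies the differential equations at the time `t` -/
def Solves (m n k : ℕ) (σ : ℝ) (x y : ℝ → ℝ) (t : ℝ) : Prop :=
  HasDerivAt x (-(n : ℝ) * y t ^ (2 * n - 1)
    + σ * n * x t ^ m * y t ^ (n - 1) * (x t ^ (2 * m) + y t ^ (2 * n)) ^ k) t ∧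
  HasDerivAt y ((m : ℝ) * x t ^ (2 * m - 1)
    + σ * m * x t ^ (m - 1) * y t ^ n * (x t ^ (2 * m) + y t ^ (2 * n)) ^ k) t

/-- `S` is a spiral trajectory near the origin: `(x, y)` is a solution for all times `t` with
`-σ t > a`, it is never at the origin and tends to the origin as `-σ t → +∞` (that is, as
`t → +∞` if `σ = -1` and as `t → -∞` if `σ = 1`), and `S` is the portion of the trajectory
`{(x t, y t) : -σ t ≥ b}`, `b > a`, inside a neighbourhood `U` of the origin. The plane is `ℂ`. -/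
def IsSpiral (m n k : ℕ) (σ : ℝ) (S : Set ℂ) : Prop :=
  ∃ (x y : ℝ → ℝ) (a b : ℝ), a < b ∧
    (∀ t : ℝ, a < -σ * t → Solves m n k σ x y t ∧ (x t ≠ 0 ∨ y t ≠ 0)) ∧
    Tendsto (fun s : ℝ => (⟨x (-σ * s), y (-σ * s)⟩ : ℂ)) atTop (𝓝 0) ∧
    ∃ U ∈ 𝓝 (0 : ℂ), S = {z : ℂ | z ∈ U ∧ ∃ t : ℝ, b ≤ -σ * t ∧ z = ⟨x t, y t⟩}

/-- the area of the set of all points at distance at most `ε` from `S` -/
noncomputable def area (S : Set ℂ) (ε : ℝ) : ℝ := (volume (Metric.cthickening ε S)).toReal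

/-- the upper Minkowski dimension -/
noncomputable def upperDim (S : Set ℂ) : ℝ :=
  2 - liminf (fun ε : ℝ => Real.log (area S ε) / Real.log ε) (𝓝[>] 0)

/-- the lower Minkowski dimension -/
noncomputable def lowerDim (S : Set ℂ) : ℝ :=
  2 - limsup (fun ε : ℝ => Real.log (area S ε) / Real.log ε) (𝓝[>] 0)

open Pool.Agent.Q166.DS in
/-- the case `σ = -1`, in terms of the system of the library -/
theorem bounds {m n k : ℕ} (hm : Odd m) (hn : Odd n) (hk : 1 ≤ k) (hnm : n ≤ m) {x y : ℝ → ℝ}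
    {a b : ℝ} (hab : a < b) (hs : ∀ t, a < t → Sys m n k x y t ∧ (x t ≠ 0 ∨ y t ≠ 0))
    (hlim : Tendsto (fun s : ℝ => (⟨x s, y s⟩ : ℂ)) atTop (𝓝 0)) {U : Set ℂ} (hU : U ∈ 𝓝 (0 : ℂ)) :
    ∃ c K ε₀ : ℝ, 0 < c ∧ 0 < K ∧ 0 < ε₀ ∧ ∀ ε : ℝ, 0 < ε → ε ≤ ε₀ →
      ENNReal.ofReal (c * ε ^ qq m n k) ≤
        volume (Metric.cthickening ε {z : ℂ | z ∈ U ∧ ∃ t : ℝ, b ≤ t ∧ z = ⟨x t, y t⟩}) ∧
      volume (Metric.cthickening ε {z : ℂ | z ∈ U ∧ ∃ t : ℝ, b ≤ t ∧ z = ⟨x t, y t⟩}) ≤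
        ENNReal.ofReal (K * ε ^ qq m n k) := by
  have hxl : Tendsto x atTop (𝓝 0) := by
    have := (Complex.continuous_re.tendsto 0).comp hlim
    rw [Complex.zero_re] at this
    exact this
  have hyl : Tendsto y atTop (𝓝 0) := by
    have := (Complex.continuous_im.tendsto 0).comp hlim
    rw [Complex.zero_im] at this
    exact this
  have hm0 : m ≠ 0 := hm.pos.ne'
  have hn0 : n ≠ 0 := hn.pos.ne'
  have hρl : Tendsto (fun t => x t ^ (2 * m) + y t ^ (2 * n)) atTop (𝓝 0) := by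
    have h1 := (hxl.pow (2 * m)).add (hyl.pow (2 * n))
    rwa [zero_pow (by omega), zero_pow (by omega), add_zero] at h1
  have hρ0 : ∀ t, a < t → x t ^ (2 * m) + y t ^ (2 * n) ≠ 0 := by
    intro t ht h
    have h1 : 0 ≤ x t ^ (2 * m) := by rw [pow_mul]; positivity
    have h2 : 0 ≤ y t ^ (2 * n) := by rw [pow_mul]; positivity
    rcases (hs t ht).2 with h3 | h3
    · exact h3 (pow_eq_zero_iff (show 2 * m ≠ 0 by omega) |>.1 (by linarith))
    · exact h3 (pow_eq_zero_iff (show 2 * n ≠ 0 by omega) |>.1 (by linarith))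
  obtain ⟨C, θ, hC, hmono, htail⟩ := traj hm hn hk hab (fun t ht => (hs t ht).1) hρ0 hρl
  have e : ∀ t, (x t + y t * Complex.I : ℂ) = ⟨x t, y t⟩ := by
    intro t
    apply Complex.ext <;> simp
  simp only [e] at htail
  obtain ⟨K, hK, hup⟩ := upper_final hm hn hk hnm hC
  -- a late time from which on the trajectory is in `U`
  obtain ⟨c₀, hc₀⟩ := (eventually_atTop.1 (hlim.eventually hU))
  set c₁ : ℝ := max b c₀ with hc₁
  have hbc : b ≤ c₁ := le_max_left _ _
  have hC1 : 0 < C + 2 * k * θ c₁ := by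
    have h1 : θ b ≤ θ c₁ := hmono self_mem_Ici hbc hbc
    have h2 : 2 * (k : ℝ) * θ b ≤ 2 * k * θ c₁ := mul_le_mul_of_nonneg_left h1 (by positivity)
    linarith
  obtain ⟨c, hc, ε₀, hε₀, hlow⟩ := lower_final hm hn hk hC1
  refine ⟨c, K, min ε₀ 1, hc, hK, lt_min hε₀ one_pos, ?_⟩
  intro ε hε hε1
  constructor
  · apply hlow ε hε (hε1.trans (min_le_left _ _))
    rw [← htail c₁ hbc]
    rintro z ⟨t, ht, rfl⟩
    exact ⟨hc₀ t ((le_max_right _ _).trans ht), t, hbc.trans ht, rfl⟩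
  · apply hup ε hε (hε1.trans (min_le_right _ _))
    rw [← htail b le_rfl]
    rintro z ⟨_, t, ht, rfl⟩
    exact ⟨t, ht, rfl⟩

/-- reflection -/
theorem volume_conj (S : Set ℂ) (ε : ℝ) :
    volume (Metric.cthickening ε (Complex.conjLIE '' S)) = volume (Metric.cthickening ε S) := by
  have h1 : Metric.cthickening ε (Complex.conjLIE '' S) =
      Complex.conjLIE ⁻¹' (Metric.cthickening ε S) := by
    ext w
    rw [mem_preimage, Metric.mem_cthickening_iff, Metric.mem_cthickening_iff]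
    have h2 : w = Complex.conjLIE (Complex.conjLIE w) := by simp
    conv_lhs => rw [h2]
    rw [Metric.infEDist_image Complex.conjLIE.isometry]
  rw [h1]
  exact (Complex.conjLIE.measurePreserving).measure_preimage
    Metric.isClosed_cthickening.measurableSet.nullMeasurableSet

open Pool.Agent.Q166.DS in
theorem bounds' {m n k : ℕ} (hm : Odd m) (hn : Odd n) (hk : 1 ≤ k) (hnm : n ≤ m) {σ : ℝ}
    (hσ : σ = -1 ∨ σ = 1) {S : Set ℂ} (hS : IsSpiral m n k σ S) :
    ∃ c K ε₀ : ℝ, 0 < c ∧ 0 < K ∧ 0 < ε₀ ∧ ∀ ε : ℝ, 0 < ε → ε ≤ ε₀ →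
      ENNReal.ofReal (c * ε ^ qq m n k) ≤ volume (Metric.cthickening ε S) ∧
      volume (Metric.cthickening ε S) ≤ ENNReal.ofReal (K * ε ^ qq m n k) := by
  obtain ⟨x, y, a, b, hab, hs, hlim, U, hU, rfl⟩ := hS
  rcases hσ with rfl | rfl
  · simp only [neg_neg, one_mul] at hs hlim ⊢
    refine bounds hm hn hk hnm hab (fun t ht => ⟨?_, (hs t ht).2⟩) hlim hU
    obtain ⟨h1, h2⟩ := (hs t ht).1
    refine ⟨h1.congr_deriv (by ring), h2.congr_deriv (by ring)⟩
  · have hn1 : Even (n - 1) := by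
      obtain ⟨n', rfl⟩ := hn
      exact ⟨n', by omega⟩
    have hn2 : Odd (2 * n - 1) := by
      obtain ⟨n', rfl⟩ := hn
      exact ⟨2 * n', by omega⟩
    have key := bounds (m := m) (n := n) (k := k) (x := fun s => x (-s)) (y := fun s => -y (-s))
      (a := a) (b := b) (U := Complex.conjLIE ⁻¹' U) hm hn hk hnm hab (by
        intro s hsa
        obtain ⟨⟨h1, h2⟩, h3⟩ := hs (-s) (by linarith)
        refine ⟨⟨?_, ?_⟩, ?_⟩
        · have h4 := h1.comp s (hasDerivAt_neg s)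
          refine h4.congr_deriv ?_
          rw [hn2.neg_pow, hn1.neg_pow, (even_two_mul n).neg_pow]
          ring
        · have h4 := (h2.comp s (hasDerivAt_neg s)).neg
          refine h4.congr_deriv ?_
          rw [hn.neg_pow, (even_two_mul n).neg_pow]
          ring
        · rcases h3 with h3 | h3
          · exact Or.inl h3
          · exact Or.inr (neg_ne_zero.2 h3))
      (by
        have h4 := (Complex.conjLIE.continuous.tendsto 0).comp hlim
        rw [map_zero] at h4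
        refine h4.congr ?_
        intro s
        simp only [Function.comp_apply, neg_mul, one_mul]
        apply Complex.ext <;> simp)
      (by
        have h4 : Tendsto Complex.conjLIE (𝓝 (0 : ℂ)) (𝓝 0) := by
          have := Complex.conjLIE.continuous.tendsto 0
          rwa [map_zero] at this
        exact h4 hU)
    have himg : {z : ℂ | z ∈ U ∧ ∃ t : ℝ, b ≤ -1 * t ∧ z = ⟨x t, y t⟩} = Complex.conjLIE ''
        {z : ℂ | z ∈ Complex.conjLIE ⁻¹' U ∧ ∃ t : ℝ, b ≤ t ∧ z = ⟨x (-t), -y (-t)⟩} := by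
      ext z
      constructor
      · rintro ⟨hz, t, ht, rfl⟩
        refine ⟨⟨x t, -y t⟩, ⟨?_, -t, by linarith, ?_⟩, ?_⟩
        · rw [mem_preimage]
          have : Complex.conjLIE (⟨x t, -y t⟩ : ℂ) = ⟨x t, y t⟩ := by
            apply Complex.ext <;> simp
          rwa [this]
        · rw [neg_neg]
        · apply Complex.ext <;> simp
      · rintro ⟨w, ⟨hw, t, ht, rfl⟩, rfl⟩
        refine ⟨hw, -t, by linarith, ?_⟩
        apply Complex.ext <;> simp
    rw [himg]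
    simp only [volume_conj]
    exact key

theorem tendsto_log {f : ℝ → ℝ} {c K ε₀ q : ℝ} (hc : 0 < c) (hK : 0 < K) (hε₀ : 0 < ε₀)
    (h : ∀ ε : ℝ, 0 < ε → ε ≤ ε₀ → c * ε ^ q ≤ f ε ∧ f ε ≤ K * ε ^ q) :
    Tendsto (fun ε : ℝ => Real.log (f ε) / Real.log ε) (𝓝[>] 0) (𝓝 q) := by
  have hlog : Tendsto (fun ε : ℝ => Real.log ε) (𝓝[>] 0) atBot := Real.tendsto_log_nhdsGT_zero
  have hlim : ∀ a : ℝ, Tendsto (fun ε : ℝ => a / Real.log ε + q) (𝓝[>] 0) (𝓝 q) := by
    intro a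
    have h1 : Tendsto (fun ε : ℝ => a / Real.log ε) (𝓝[>] 0) (𝓝 0) := hlog.const_div_atBot a
    have := h1.add_const q
    rwa [zero_add] at this
  have hev : ∀ᶠ ε : ℝ in 𝓝[>] 0, 0 < ε ∧ ε < min ε₀ 1 := by
    filter_upwards [self_mem_nhdsWithin, mem_nhdsWithin_of_mem_nhds
      (Iio_mem_nhds (show (0 : ℝ) < min ε₀ 1 from lt_min hε₀ one_pos))] with ε h1 h2
    exact ⟨h1, h2⟩
  refine tendsto_of_tendsto_of_tendsto_of_le_of_le' (hlim (Real.log K)) (hlim (Real.log c)) ?_ ?_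
  · filter_upwards [hev] with ε ⟨h1, h2⟩
    obtain ⟨h3, h4⟩ := h ε h1 (h2.le.trans (min_le_left _ _))
    have hl : Real.log ε < 0 := Real.log_neg h1 (h2.trans_le (min_le_right _ _))
    have hf : 0 < f ε := lt_of_lt_of_le (by positivity) h3
    have h5 := Real.log_le_log hf h4
    rw [Real.log_mul hK.ne' (by positivity), Real.log_rpow h1] at h5
    rw [div_add' _ _ _ hl.ne, div_le_div_right_of_neg hl]
    exact h5
  · filter_upwards [hev] with ε ⟨h1, h2⟩
    obtain ⟨h3, h4⟩ := h ε h1 (h2.le.trans (min_le_left _ _))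
    have hl : Real.log ε < 0 := Real.log_neg h1 (h2.trans_le (min_le_right _ _))
    have h5 := Real.log_le_log (by positivity) h3
    rw [Real.log_mul hc.ne' (by positivity), Real.log_rpow h1] at h5
    rw [div_add' _ _ _ hl.ne, div_le_div_right_of_neg hl]
    exact h5

/-- Let `m > n ≥ 1` be odd, `k ≥ 1`, `σ = ±1`. Every spiral trajectory `S` near the origin has upper
and lower Minkowski dimension `2 - (1 + n/m) / (1 + 2 k n)`; moreover, for some constants
`c, K > 0` and all small `ε > 0`, `c ε^q ≤ |S_ε| ≤ K ε^q` with `q = (1 + n/m) / (1 + 2 k n)`. -/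
theorem result (m n k : ℕ) (hm : Odd m) (hn : Odd n) (hnm : n < m) (hk : 1 ≤ k) (σ : ℝ)
    (hσ : σ = -1 ∨ σ = 1) (S : Set ℂ) (hS : IsSpiral m n k σ S) :
    upperDim S = 2 - (1 + (n : ℝ) / m) / (1 + 2 * k * n) ∧
    lowerDim S = 2 - (1 + (n : ℝ) / m) / (1 + 2 * k * n) ∧
    ∃ c K ε₀ : ℝ, 0 < c ∧ 0 < K ∧ 0 < ε₀ ∧ ∀ ε : ℝ, 0 < ε → ε ≤ ε₀ →
      c * ε ^ ((1 + (n : ℝ) / m) / (1 + 2 * k * n)) ≤ area S ε ∧
      area S ε ≤ K * ε ^ ((1 + (n : ℝ) / m) / (1 + 2 * k * n)) := by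
  obtain ⟨c, K, ε₀, hc, hK, hε₀, H⟩ := bounds' hm hn hk hnm.le hσ hS
  have H' : ∀ ε : ℝ, 0 < ε → ε ≤ ε₀ →
      c * ε ^ ((1 + (n : ℝ) / m) / (1 + 2 * k * n)) ≤ area S ε ∧
      area S ε ≤ K * ε ^ ((1 + (n : ℝ) / m) / (1 + 2 * k * n)) := by
    intro ε h1 h2
    obtain ⟨h3, h4⟩ := H ε h1 h2
    constructor
    · have h5 : volume (Metric.cthickening ε S) ≠ ⊤ := ne_top_of_le_ne_top ENNReal.ofReal_ne_top h4
      exact (ENNReal.ofReal_le_iff_le_toReal h5).1 h3
    · exact ENNReal.toReal_le_of_le_ofReal (by positivity) h4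
  have ht := tendsto_log hc hK hε₀ H'
  refine ⟨?_, ?_, c, K, ε₀, hc, hK, hε₀, H'⟩
  · unfold upperDim
    rw [ht.liminf_eq]
  · unfold lowerDim
    rw [ht.limsup_eq]

end Pool.Agent.Results.MP_7e532d_an.BoxDimension
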